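import Pool.Agent.H23.CM4.Targets
import Pool.Agent.H65.CM4.Stmt

/-!
# The fourth moment over the CM extensions, part D: the final statement
-/

set_option autoImplicit false

open NumberField MeasureTheory Set Filter Complex
open scoped nonZeroDivisors Real

namespace Pool.Agent.H23.CM4

open Pool.Agent.H31.CN (IsLf)
open Pool.Agent.H61.FM (CC pv Sp)
open Pool.Agent.H65.CM4 (gG Kc Sq nm dg ClChar IsLFunction Family T_FIN)

theorem fin_inst (K : Type) [Field K] [NumberField K] :
    (Pool.Agent.H65.CM4.instFintypeClChar K) = (Pool.Agent.H61.FM.instFintypeCC K) :=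
  Subsingleton.elim _ _

/-- totally complex fields have even degree -/
theorem fin_cx (K : Type) [Field K] [NumberField K] (h : IsTotallyComplex K) :
    ∃ n : ℕ, CX K n := by
  have h1 : Module.finrank ℚ K = 2 * InfinitePlace.nrComplexPlaces K :=
    IsTotallyComplex.finrank K
  refine ⟨InfinitePlace.nrComplexPlaces K, ?_, h1, h⟩
  have h2 : 0 < Module.finrank ℚ K := Module.finrank_pos
  omega

theorem fin_fam (k : Type) [Field k] [NumberField k] (X : ℝ) {ι : Type} (S : Finset ι)
    (K : ι → Type) [∀ i, Field (K i)] [∀ i, NumberField (K i)] [∀ i, Algebra k (K i)]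
    (L : ∀ i, ClChar (K i) → ℂ → ℂ) (h : Family k X S K L) : Fml k S K L 0 X where
  cm i hi := ⟨h.quadratic i hi, h.complex i hi⟩
  lo _ _ := abs_nonneg _
  hi i hi := h.discr_le i hi
  ne i hi j hj hne := by
    by_contra hij
    exact (h.distinct i hi j hj hij).false hne.some
  lf i hi ψ := h.isL i hi ψ

theorem pf_FIN (hFM2 : T_FM2) (hCO1 : T_CO1) (hCO2 : T_CO2) (hEXL : T_EXL) : T_FIN := by
  refine ⟨fun K _ _ ψ hK => ?_, fun k _ _ _ ε hε => ?_⟩
  · obtain ⟨n, hn⟩ := fin_cx K hK
    exact hEXL n K hn ψ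
  · obtain ⟨C₁, A₁, hC₁, h₁⟩ := hFM2 k ε hε
    obtain ⟨C₂, A₂, hC₂, h₂⟩ := hCO2 k ε hε
    obtain ⟨C₃, A₃, hC₃, h₃⟩ := hCO1 k ε hε
    refine ⟨max C₃ (max C₁ C₂), max A₃ (max A₁ A₂), fun X ι S K _ _ _ L hX hF => ⟨fun t => ?_,
      fun η T h0 h1 hT => ?_, fun η h0 h1 hS => ?_⟩⟩
    · have h := h₁ X ι S K L t hX (fin_fam k X S K L hF)
      have hX0 : 0 ≤ X ^ (3 / 2 + ε) := Real.rpow_nonneg (by linarith) _
      refine le_trans ?_ (h.trans (mul_le_mul_of_nonneg_right
        ((le_max_left _ _).trans (le_max_right _ _)) hX0))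
      refine Finset.sum_le_sum fun i _ => ?_
      rw [show (Pool.Agent.H65.CM4.instFintypeClChar (K i)) =
        (Pool.Agent.H61.FM.instFintypeCC (K i)) from Subsingleton.elim _ _]
      refine Finset.sum_le_sum fun ψ _ => ?_
      have hb : 1 ≤ 1 + |t i ψ| := by
        have := abs_nonneg (t i ψ)
        linarith
      refine pow_le_pow_left₀ (by positivity) ?_ 4
      refine div_le_div_of_nonneg_left (norm_nonneg _) (by positivity) ?_
      exact pow_le_pow_right₀ hb ((le_max_left _ _).trans (le_max_right _ _))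
    · have h := h₃ X η ι S K L T hX h0 h1 (fin_fam k X S K L hF) (fun p hp => by
        obtain ⟨hpS, t, ht⟩ := hT p hp
        refine ⟨hpS, t, lt_of_le_of_lt ?_ ht⟩
        have hb : 1 ≤ 1 + |t| := by
          have := abs_nonneg t
          linarith
        refine mul_le_mul_of_nonneg_right (pow_le_pow_right₀ hb (le_max_left _ _)) ?_
        exact Real.rpow_nonneg (abs_nonneg _) _)
      have hX0 : 0 ≤ X ^ (3 / 2 - 4 * η + ε) := Real.rpow_nonneg (by linarith) _
      exact h.trans (mul_le_mul_of_nonneg_right (le_max_left _ _) hX0)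
    · have h := h₂ X η ι S K L hX h0 h1 (fin_fam k X S K L hF) (fun i hi => by
        obtain ⟨ψ, t, ht⟩ := hS i hi
        refine ⟨ψ, t, lt_of_le_of_lt ?_ ht⟩
        have hb : 1 ≤ 1 + |t| := by
          have := abs_nonneg t
          linarith
        refine mul_le_mul_of_nonneg_right (pow_le_pow_right₀ hb
          ((le_max_right _ _).trans (le_max_right _ _))) ?_
        exact Real.rpow_nonneg (abs_nonneg _) _)
      have hX0 : 0 ≤ X ^ (1 - 4 * η + ε) := Real.rpow_nonneg (by linarith) _
      exact h.trans (mul_le_mul_of_nonneg_right ((le_max_right _ _).trans (le_max_right _ _)) hX0)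

end Pool.Agent.H23.CM4
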