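import Pool.Agent.H23.CM4.Targets
import Pool.Agent.H61.CM4.TargetsB

/-!
# The fourth moment over the CM extensions, part D: bounds for the kernel on the real line
-/

set_option autoImplicit false

open NumberField MeasureTheory Set Filter Complex
open scoped nonZeroDivisors Real

namespace Pool.Agent.H23.CM4

open Pool.Agent.H65.CM4 (gG Kc Sq nm dg)

theorem pf_KRB (hKCB : Pool.Agent.H61.CM4.T_KCB) (hKCD : Pool.Agent.H61.CM4.T_KCD) : T_KRB := by
  intro n B κ _ hκ hκ8
  obtain ⟨C, j, hC, H⟩ := hKCB n B κ hκ hκ8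
  refine ⟨20 * 2 ^ (B + 1) * (C + 1), j + 1, by positivity, fun s hs => ?_⟩
  obtain ⟨hs1, hs2⟩ := abs_le.1 hs
  have hd := hKCD n s (by linarith) (by linarith)
  have hopen := Complex.isOpen_slitPlane
  have hsl : ∀ r : ℝ, 0 < r → ((r : ℝ) : ℂ) ∈ slitPlane := fun r hr => by
    rw [mem_slitPlane_iff]
    left
    simpa using hr
  have hD : ∀ r : ℝ, 0 < r →
      HasDerivAt (fun x : ℝ => Kc n s (x : ℂ)) (deriv (Kc n s) (r : ℂ)) r := fun r hr =>
    ((hd.differentiableAt (hopen.mem_nhds (hsl r hr))).hasDerivAt).comp_ofReal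
  have hcont : ContinuousOn (deriv (Kc n s)) slitPlane := (hd.deriv hopen).continuousOn
  refine ⟨?_, fun r hr => ⟨(hD r hr).differentiableAt, ?_, ?_⟩⟩
  · have h1 : ContinuousOn (fun r : ℝ => deriv (Kc n s) (r : ℂ)) (Ioi 0) :=
      hcont.comp Complex.continuous_ofReal.continuousOn fun r hr => hsl r hr
    refine h1.congr fun r hr => ?_
    exact (hD r hr).deriv
  · -- the value
    set T : ℝ := 1 + |s.im| with hT
    have hT1 : 1 ≤ T := by
      have := abs_nonneg s.im
      linarith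
    have h := H s r hs (by simpa using hr) (by
      simp only [ofReal_im, abs_zero, ofReal_re]
      positivity)
    rw [norm_real, Real.norm_of_nonneg hr.le, Real.rpow_neg (by positivity : (0 : ℝ) ≤ 1 + r),
      Real.rpow_natCast, ← hT] at h
    refine h.trans ?_
    have hE : 0 < Real.exp (-(π * n * |s.im| / 2)) := Real.exp_pos _
    have hp : 0 < r ^ (-(1 / 2 + 2 * κ)) := Real.rpow_pos_of_pos hr _
    have hq : 0 < ((1 + r) ^ B)⁻¹ := by positivity
    have h2 : (1 : ℝ) ≤ 2 ^ (B + 1) := one_le_pow₀ (by norm_num)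
    have h3 : C ≤ 20 * 2 ^ (B + 1) * (C + 1) := by nlinarith
    have h4 : T ^ j ≤ T ^ (j + 1) := pow_le_pow_right₀ hT1 (by omega)
    calc C * T ^ j * Real.exp (-(π * n * |s.im| / 2)) *
          (r ^ (-(1 / 2 + 2 * κ)) * ((1 + r) ^ B)⁻¹)
        = C * T ^ j * (Real.exp (-(π * n * |s.im| / 2)) *
          r ^ (-(1 / 2 + 2 * κ)) * ((1 + r) ^ B)⁻¹) := by ring
      _ ≤ 20 * 2 ^ (B + 1) * (C + 1) * T ^ (j + 1) * (Real.exp (-(π * n * |s.im| / 2)) *
          r ^ (-(1 / 2 + 2 * κ)) * ((1 + r) ^ B)⁻¹) := by gcongr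
      _ = _ := by ring
  · -- the derivative
    rw [(hD r hr).deriv]
    set T : ℝ := 1 + |s.im| with hT
    have hT1 : 1 ≤ T := by
      have := abs_nonneg s.im
      linarith
    have hT0 : 0 < T := by linarith
    set ρ : ℝ := r / (20 * T) with hρ
    have hρ0 : 0 < ρ := by positivity
    have hρr : ρ ≤ r / 20 := by
      rw [hρ]
      exact div_le_div_of_nonneg_left hr.le (by norm_num) (by linarith)
    set M : ℝ := 2 ^ (B + 1) * (C * T ^ j * Real.exp (-(π * n * |s.im| / 2)) *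
      (r ^ (-(1 / 2 + 2 * κ)) * ((1 + r) ^ B)⁻¹)) with hM
    have hre : ∀ z : ℂ, ‖z - r‖ ≤ ρ → 19 / 20 * r ≤ z.re := fun z hz => by
      have h1 := Complex.abs_re_le_norm (z - r)
      rw [sub_re, ofReal_re] at h1
      have h2 := abs_le.1 (h1.trans hz)
      linarith [h2.1]
    have hball : Metric.closedBall (r : ℂ) ρ ⊆ slitPlane := fun z hz => by
      rw [mem_slitPlane_iff]
      left
      rw [Metric.mem_closedBall, dist_eq_norm] at hz
      have := hre z hz
      linarith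
    have hdc : DiffContOnCl ℂ (Kc n s) (Metric.ball (r : ℂ) ρ) := by
      refine DifferentiableOn.diffContOnCl ?_
      rw [closure_ball _ hρ0.ne']
      exact hd.mono hball
    have hbd : ∀ z ∈ Metric.sphere (r : ℂ) ρ, ‖Kc n s z‖ ≤ M := by
      intro z hz
      rw [Metric.mem_sphere, dist_eq_norm] at hz
      have hzr := hre z hz.le
      have hzi : |z.im| ≤ ρ := by
        have h1 := Complex.abs_im_le_norm (z - r)
        rw [sub_im, ofReal_im, sub_zero] at h1
        exact h1.trans hz.le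
      have h0 : 0 < z.re := by linarith
      have h := H s z hs h0 (by
        refine hzi.trans ?_
        rw [← hT, hρ, div_le_div_iff₀ (by positivity) (by positivity)]
        nlinarith)
      rw [← hT, Real.rpow_neg (by positivity : (0 : ℝ) ≤ 1 + ‖z‖), Real.rpow_natCast] at h
      have hn : r / 2 ≤ ‖z‖ := by
        have := Complex.re_le_norm z
        linarith
      have k1 : ‖z‖ ^ (-(1 / 2 + 2 * κ)) ≤ 2 * r ^ (-(1 / 2 + 2 * κ)) := by
        calc ‖z‖ ^ (-(1 / 2 + 2 * κ)) ≤ (r / 2) ^ (-(1 / 2 + 2 * κ)) :=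
              Real.rpow_le_rpow_of_nonpos (by positivity) hn (by linarith)
          _ = r ^ (-(1 / 2 + 2 * κ)) / 2 ^ (-(1 / 2 + 2 * κ)) := Real.div_rpow hr.le (by norm_num) _
          _ = r ^ (-(1 / 2 + 2 * κ)) * 2 ^ (1 / 2 + 2 * κ) := by
              rw [Real.rpow_neg (by norm_num : (0 : ℝ) ≤ 2), div_inv_eq_mul]
          _ ≤ r ^ (-(1 / 2 + 2 * κ)) * 2 ^ (1 : ℝ) := by
              refine mul_le_mul_of_nonneg_left ?_ (Real.rpow_nonneg hr.le _)
              exact Real.rpow_le_rpow_of_exponent_le (by norm_num) (by linarith)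
          _ = _ := by rw [Real.rpow_one]; ring
      have k2 : ((1 + ‖z‖) ^ B)⁻¹ ≤ 2 ^ B * ((1 + r) ^ B)⁻¹ := by
        have e : (2 : ℝ) ^ B * ((1 + r) ^ B)⁻¹ = (((1 + r) / 2) ^ B)⁻¹ := by
          rw [div_pow, inv_div]
          rfl
        rw [e]
        refine inv_anti₀ (by positivity) ?_
        exact pow_le_pow_left₀ (by positivity) (by linarith) _
      refine h.trans ?_
      have hE : 0 < Real.exp (-(π * n * |s.im| / 2)) := Real.exp_pos _
      have hp : 0 < r ^ (-(1 / 2 + 2 * κ)) := Real.rpow_pos_of_pos hr _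
      calc C * T ^ j * Real.exp (-(π * n * |s.im| / 2)) *
            (‖z‖ ^ (-(1 / 2 + 2 * κ)) * ((1 + ‖z‖) ^ B)⁻¹)
          ≤ C * T ^ j * Real.exp (-(π * n * |s.im| / 2)) *
            ((2 * r ^ (-(1 / 2 + 2 * κ))) * (2 ^ B * ((1 + r) ^ B)⁻¹)) := by
            refine mul_le_mul_of_nonneg_left ?_ (by positivity)
            exact mul_le_mul k1 k2 (by positivity) (by positivity)
        _ = M := by
            rw [hM, pow_succ]
            ring
    have hfin := Complex.norm_deriv_le_of_forall_mem_sphere_norm_le hρ0 hdc hbd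
    refine hfin.trans ?_
    have hE : 0 < Real.exp (-(π * n * |s.im| / 2)) := Real.exp_pos _
    have hp : 0 < r ^ (-(1 / 2 + 2 * κ)) := Real.rpow_pos_of_pos hr _
    have e1 : r ^ (-(3 / 2 + 2 * κ)) = r ^ (-(1 / 2 + 2 * κ)) / r := by
      have : -(3 / 2 + 2 * κ) = -(1 / 2 + 2 * κ) - 1 := by ring
      rw [this, Real.rpow_sub hr, Real.rpow_one]
    have e2 : M / ρ = 20 * 2 ^ (B + 1) * C * T ^ (j + 1) *
        (Real.exp (-(π * n * |s.im| / 2)) * r ^ (-(3 / 2 + 2 * κ)) * ((1 + r) ^ B)⁻¹) := by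
      rw [hM, hρ, e1, pow_succ T j]
      field_simp
    rw [e2]
    have hq : 0 < r ^ (-(3 / 2 + 2 * κ)) := Real.rpow_pos_of_pos hr _
    calc 20 * 2 ^ (B + 1) * C * T ^ (j + 1) *
          (Real.exp (-(π * n * |s.im| / 2)) * r ^ (-(3 / 2 + 2 * κ)) * ((1 + r) ^ B)⁻¹)
        ≤ 20 * 2 ^ (B + 1) * (C + 1) * T ^ (j + 1) *
          (Real.exp (-(π * n * |s.im| / 2)) * r ^ (-(3 / 2 + 2 * κ)) * ((1 + r) ^ B)⁻¹) := by
          gcongr
          linarith
      _ = _ := by ring

end Pool.Agent.H23.CM4
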