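import Pool.Agent.H23.CM4.Targets

/-!
# The fourth moment over the CM extensions, row D_PBD: the bound for the `L`-function by the partial
sums of the coefficients
-/

set_option autoImplicit false

open NumberField MeasureTheory Set Filter Complex
open scoped nonZeroDivisors Real

namespace Pool.Agent.H23.CM4

open Pool.Agent.H31.CN (IsLf)
open Pool.Agent.H61.FM (CC pv Sp)
open Pool.Agent.H65.CM4 (gG Kc Sq nm dg)

namespace PBDP

/-- powers at a scaled point -/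
theorem rp (x q e : ℝ) (hx : 1 ≤ x) (hq : 1 ≤ q) (he : -2 ≤ e) (he' : e ≤ 0) :
    (x / q) ^ e ≤ q ^ 2 := by
  have hq0 : 0 < q := by linarith
  have h1 : (1 : ℝ) / q ≤ x / q := div_le_div_of_nonneg_right hx hq0.le
  calc (x / q) ^ e ≤ (1 / q) ^ e := Real.rpow_le_rpow_of_nonpos (by positivity) h1 he'
    _ = q ^ (-e) := by rw [one_div, Real.inv_rpow hq0.le, Real.rpow_neg hq0.le]
    _ ≤ q ^ (2 : ℝ) := Real.rpow_le_rpow_of_exponent_le hq (by linarith)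
    _ = q ^ 2 := by norm_cast

/-- the weight -/
theorem wt (B : ℕ) (x q : ℝ) (hx : 1 ≤ x) (hq : 1 ≤ q) :
    ((1 + x / q) ^ (B + 4))⁻¹ ≤ q ^ 4 * x ^ (-(4 : ℝ)) := by
  have hq0 : 0 < q := by linarith
  have hx0 : 0 < x := by linarith
  have e : q ^ 4 * x ^ (-(4 : ℝ)) = ((x / q) ^ 4)⁻¹ := by
    rw [Real.rpow_neg hx0.le, div_pow, inv_div]
    norm_cast
  rw [e]
  refine inv_anti₀ (by positivity) ?_
  have h1 : 0 < x / q := by positivity
  calc (x / q) ^ 4 ≤ (1 + x / q) ^ 4 := pow_le_pow_left₀ h1.le (by linarith) 4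
    _ ≤ (1 + x / q) ^ (B + 4) := pow_le_pow_right₀ (by linarith) (by omega)

/-- integrability -/
theorem int_h (f : ℝ → ℝ) (hf : Measurable f) (hf0 : ∀ x, 0 ≤ f x) (C q : ℝ) (B : ℕ) (hC : 0 < C)
    (hq : 1 ≤ q) (hb : ∀ x : ℝ, 1 ≤ x → f x ≤ C * x ^ 2) :
    IntegrableOn (fun x : ℝ => f x * x ^ (-(3 / 2) : ℝ) * ((1 + x / q) ^ (B + 4))⁻¹) (Ioi 1) := by
  have h1 : IntegrableOn (fun x : ℝ => (C * q ^ 4) * x ^ (-(7 / 2) : ℝ)) (Ioi 1) :=
    (integrableOn_Ioi_rpow_of_lt (by norm_num) one_pos).const_mul _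
  refine Integrable.mono' h1 ?_ ?_
  · refine Measurable.aestronglyMeasurable ?_
    exact (hf.mul (measurable_id.pow_const _)).mul
      ((((measurable_id.div_const q).const_add 1).pow_const (B + 4)).inv)
  · refine (ae_restrict_iff' measurableSet_Ioi).2 (Eventually.of_forall fun x hx => ?_)
    rw [mem_Ioi] at hx
    have hx0 : 0 < x := by linarith
    have hq0 : 0 < q := by linarith
    have hfx := hf0 x
    rw [Real.norm_of_nonneg (by positivity)]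
    calc f x * x ^ (-(3 / 2) : ℝ) * ((1 + x / q) ^ (B + 4))⁻¹
        ≤ (C * x ^ 2) * x ^ (-(3 / 2) : ℝ) * (q ^ 4 * x ^ (-(4 : ℝ))) := by
          refine mul_le_mul ?_ (wt B x q hx.le hq) (by positivity) (by positivity)
          exact mul_le_mul_of_nonneg_right (hb x hx.le) (by positivity)
      _ = C * q ^ 4 * (x ^ (2 : ℝ) * x ^ (-(3 / 2) : ℝ) * x ^ (-(4 : ℝ))) := by
          rw [Real.rpow_two]
          ring
      _ = _ := by
          rw [← Real.rpow_add hx0, ← Real.rpow_add hx0]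
          norm_num

/-- one half of the approximate functional equation -/
theorem half (hABS : T_ABS) {K : Type} [Field K] [NumberField K] (B : ℕ) (κ G q : ℝ) (f : ℝ → ℂ)
    (c : (Ideal (𝓞 K))⁰ → ℂ) (S : ℝ → ℝ) (a : ℂ) (hκ : 0 < κ) (hκ8 : κ ≤ 1 / 8) (hG : 0 ≤ G)
    (hq : 1 ≤ q)
    (hcont : ContinuousOn (deriv f) (Ioi 0))
    (hder : ∀ r : ℝ, 0 < r → DifferentiableAt ℝ f r ∧
      ‖f r‖ ≤ G * r ^ (-(1 / 2 + 2 * κ)) * ((1 + r) ^ (B + 4))⁻¹ ∧
      ‖deriv f r‖ ≤ G * r ^ (-(3 / 2 + 2 * κ)) * ((1 + r) ^ (B + 4))⁻¹)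
    (hc : ∀ J, ‖c J‖ ≤ 1)
    (hS : ∀ x : ℝ, ‖∑' J : {J : (Ideal (𝓞 K))⁰ // nJ J ≤ x}, c J‖ = S x)
    (hI : IntegrableOn (fun x : ℝ => S x * x ^ (-(3 / 2) : ℝ) * ((1 + x / q) ^ (B + 4))⁻¹) (Ioi 1))
    (ha : HasSum (fun J : (Ideal (𝓞 K))⁰ => c J * f (nJ J / q)) a) :
    ‖a‖ ≤ G * q ^ (1 / 2 + 2 * κ) *
      ∫ x in Ioi (1 : ℝ), S x * x ^ (-(3 / 2) : ℝ) * ((1 + x / q) ^ (B + 4))⁻¹ := by
  have hq0 : 0 < q := by linarith
  set g : ℝ → ℂ := fun x => f (x / q) with hg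
  have hgd : ∀ x : ℝ, 0 < x → HasDerivAt g ((1 / q : ℝ) • deriv f (x / q)) x := by
    intro x hx
    have h1 := ((hder (x / q) (by positivity)).1).hasDerivAt
    have h2 : HasDerivAt (fun x : ℝ => x / q) (1 / q) x := (hasDerivAt_id x).div_const q
    exact HasDerivAt.scomp x h1 h2
  have hM : ∀ x : ℝ, 1 ≤ x → DifferentiableAt ℝ g x ∧
      ‖g x‖ ≤ (G * q ^ 6) * x ^ (-(3 : ℝ)) ∧ ‖deriv g x‖ ≤ (G * q ^ 6) * x ^ (-(4 : ℝ)) := by
    intro x hx
    have hx0 : 0 < x := by linarith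
    obtain ⟨-, hb1, hb2⟩ := hder (x / q) (by positivity)
    have hw := wt B x q hx hq
    refine ⟨(hgd x hx0).differentiableAt, ?_, ?_⟩
    · refine hb1.trans ?_
      have h3 := rp x q (-(1 / 2 + 2 * κ)) hx hq (by linarith) (by linarith)
      calc G * (x / q) ^ (-(1 / 2 + 2 * κ)) * ((1 + x / q) ^ (B + 4))⁻¹
          ≤ G * q ^ 2 * (q ^ 4 * x ^ (-(4 : ℝ))) := by
            refine mul_le_mul (mul_le_mul_of_nonneg_left h3 hG) hw (by positivity) (by positivity)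
        _ = (G * q ^ 6) * x ^ (-(4 : ℝ)) := by ring
        _ ≤ (G * q ^ 6) * x ^ (-(3 : ℝ)) := by
            refine mul_le_mul_of_nonneg_left ?_ (by positivity)
            exact Real.rpow_le_rpow_of_exponent_le hx (by norm_num)
    · rw [(hgd x hx0).deriv, norm_smul, Real.norm_of_nonneg (by positivity)]
      have h1 : 1 / q * ‖deriv f (x / q)‖ ≤ ‖deriv f (x / q)‖ :=
        mul_le_of_le_one_left (norm_nonneg _) ((div_le_one hq0).2 hq)
      refine h1.trans (hb2.trans ?_)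
      have h3 := rp x q (-(3 / 2 + 2 * κ)) hx hq (by linarith) (by linarith)
      calc G * (x / q) ^ (-(3 / 2 + 2 * κ)) * ((1 + x / q) ^ (B + 4))⁻¹
          ≤ G * q ^ 2 * (q ^ 4 * x ^ (-(4 : ℝ))) := by
            refine mul_le_mul (mul_le_mul_of_nonneg_left h3 hG) hw (by positivity) (by positivity)
        _ = _ := by ring
  have hgcont : ContinuousOn (deriv g) (Ici 1) := by
    have h1 : ContinuousOn (fun x : ℝ => (1 / q : ℝ) • deriv f (x / q)) (Ici 1) := by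
      have h9 : ContinuousOn (fun x : ℝ => deriv f (x / q)) (Ici 1) := by
        have h0 : ContinuousOn (fun x : ℝ => x / q) (Ici 1) :=
          (continuous_id.div_const q).continuousOn
        refine hcont.comp h0 ?_
        intro x hx
        rw [mem_Ici] at hx
        exact div_pos (by linarith) hq0
      exact h9.const_smul (1 / q : ℝ)
    refine h1.congr fun x hx => ?_
    rw [mem_Ici] at hx
    exact (hgd x (by linarith)).deriv
  obtain ⟨hint, hval⟩ := hABS K c g _ a hc hgcont hM ha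
  rw [hval, norm_neg, ← integral_const_mul]
  refine (norm_integral_le_integral_norm _).trans ?_
  refine setIntegral_mono_on hint.norm (hI.const_mul _) measurableSet_Ioi fun x hx => ?_
  rw [mem_Ioi] at hx
  have hx0 : 0 < x := by linarith
  obtain ⟨-, -, hb2⟩ := hder (x / q) (by positivity)
  rw [norm_mul, hS x, (hgd x hx0).deriv, norm_smul, Real.norm_of_nonneg (by positivity)]
  have hS0 : 0 ≤ S x := by
    rw [← hS x]
    exact norm_nonneg _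
  have h3 : (x / q) ^ (-(3 / 2 + 2 * κ)) / q ≤ q ^ (1 / 2 + 2 * κ) * x ^ (-(3 / 2) : ℝ) := by
    have h4 : (x / q) ^ (-(3 / 2 + 2 * κ)) / q =
        q ^ (1 / 2 + 2 * κ) * x ^ (-(3 / 2 + 2 * κ)) := by
      have e5 : (1 : ℝ) / 2 + 2 * κ = (3 / 2 + 2 * κ) - 1 := by ring
      rw [Real.div_rpow hx0.le hq0.le, e5, Real.rpow_sub hq0, Real.rpow_neg hq0.le,
        Real.rpow_one]
      field_simp
    rw [h4]
    refine mul_le_mul_of_nonneg_left ?_ (Real.rpow_nonneg hq0.le _)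
    exact Real.rpow_le_rpow_of_exponent_le hx.le (by linarith)
  calc S x * (1 / q * ‖deriv f (x / q)‖)
      ≤ S x * (1 / q * (G * (x / q) ^ (-(3 / 2 + 2 * κ)) * ((1 + x / q) ^ (B + 4))⁻¹)) := by
        refine mul_le_mul_of_nonneg_left ?_ hS0
        exact mul_le_mul_of_nonneg_left hb2 (by positivity)
    _ = S x * (G * ((x / q) ^ (-(3 / 2 + 2 * κ)) / q) * ((1 + x / q) ^ (B + 4))⁻¹) := by ring
    _ ≤ S x * (G * (q ^ (1 / 2 + 2 * κ) * x ^ (-(3 / 2) : ℝ)) * ((1 + x / q) ^ (B + 4))⁻¹) := by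
        refine mul_le_mul_of_nonneg_left ?_ hS0
        refine mul_le_mul_of_nonneg_right ?_ (by positivity)
        exact mul_le_mul_of_nonneg_left h3 hG
    _ = _ := by ring

end PBDP

open PBDP in
theorem pf_PBD (hAFE : T_AFE) (hKRB : T_KRB) (hGLN : T_GLN) (hABS : T_ABS) (hSPJ : T_SPJ)
    (hSPT : T_SPT) (hCMX : T_CMX) (hDSM : T_DSM) : T_PBD := by
  intro n B κ hκ hκ8
  rcases Nat.eq_zero_or_pos n with hn0 | hn0
  · refine ⟨1, 0, one_pos, fun K _ _ hX => ?_⟩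
    have := hX.pos
    omega
  obtain ⟨C₁, j₁, hC₁, hK⟩ := hKRB n (B + 4) κ hn0 hκ hκ8
  obtain ⟨C₂, j₂, hC₂, hG⟩ := hGLN n
  obtain ⟨C₃, hC₃, hS⟩ := hSPT (2 * n)
  refine ⟨2 * C₁ * C₂, j₁ + j₂, by positivity, ?_⟩
  intro K _ _ hX ψ F hF s hs
  obtain ⟨hSm, hSb⟩ := hS K hX.rk ψ
  obtain ⟨hs1, hs2⟩ := abs_le.1 hs
  have hs8 : |s.re - 1 / 2| ≤ 1 / 8 := hs.trans hκ8
  set D : ℝ := dK K with hD
  have hD1 : 1 ≤ D := hCMX.2 K
  have hD0 : 0 < D := by linarith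
  set T : ℝ := 1 + |s.im| with hT
  have hT1 : 1 ≤ T := by
    have := abs_nonneg s.im
    linarith
  have hT0 : 0 < T := by linarith
  set q : ℝ := Real.sqrt D with hq
  have hq1 : 1 ≤ q := by
    rw [hq, Real.one_le_sqrt]
    exact hD1
  have hq0 : 0 < q := by linarith
  set E₀ : ℝ := Real.exp (-(π * n * |s.im| / 2)) with hE₀
  have hE₀p : 0 < E₀ := Real.exp_pos _
  obtain ⟨ε, hε, hA⟩ := hAFE n K hX ψ F hF
  obtain ⟨a, a', ha, ha', hval⟩ := hA s (by linarith) (by linarith)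
  have hI : IntegrableOn (fun x : ℝ => ‖Sp ψ x‖ * x ^ (-(3 / 2) : ℝ) *
      ((1 + x / q) ^ (B + 4))⁻¹) (Ioi 1) :=
    int_h (fun x => ‖Sp ψ x‖) hSm.norm (fun x => norm_nonneg _) C₃ q B hC₃ hq1 hSb
  refine ⟨hI, ?_⟩
  change ‖F s‖ ≤ 2 * C₁ * C₂ * T ^ (j₁ + j₂) * D ^ (2 * κ) *
    ∫ x in Ioi (1 : ℝ), ‖Sp ψ x‖ * x ^ (-(3 / 2) : ℝ) * ((1 + x / q) ^ (B + 4))⁻¹
  set I : ℝ := ∫ x in Ioi (1 : ℝ), ‖Sp ψ x‖ * x ^ (-(3 / 2) : ℝ) * ((1 + x / q) ^ (B + 4))⁻¹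
    with hIdef
  have hI0 : 0 ≤ I := by
    refine setIntegral_nonneg measurableSet_Ioi fun x hx => ?_
    rw [mem_Ioi] at hx
    have : 0 < x := by linarith
    positivity
  set G : ℝ := C₁ * T ^ j₁ * E₀ with hGdef
  have hG0 : 0 ≤ G := by positivity
  have ha1 : ‖a‖ ≤ G * q ^ (1 / 2 + 2 * κ) * I := by
    obtain ⟨hc, hd⟩ := hK s hs
    refine half hABS B κ G q (fun r : ℝ => Kc n s (r : ℂ)) (pv ψ) (fun x => ‖Sp ψ x‖) a hκ hκ8 hG0
      hq1 hc hd (fun J => (hDSM K).1 ψ J |>.le) (fun x => ?_) hI ha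
    rw [(hSPJ K ψ x).1]
  have ha2 : ‖a'‖ ≤ G * q ^ (1 / 2 + 2 * κ) * I := by
    have hs' : |(1 - s).re - 1 / 2| ≤ κ := by
      rw [sub_re, one_re, abs_le]
      constructor <;> linarith
    have him : |(1 - s).im| = |s.im| := by
      rw [sub_im, one_im, zero_sub, abs_neg]
    obtain ⟨hc, hd⟩ := hK (1 - s) hs'
    rw [him] at hd
    refine half hABS B κ G q (fun r : ℝ => Kc n (1 - s) (r : ℂ))
      (fun J => (starRingEnd ℂ) (pv ψ J)) (fun x => ‖Sp ψ x‖) a' hκ hκ8 hG0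
      hq1 hc hd (fun J => ?_) (fun x => ?_) hI ha'
    · rw [RCLike.norm_conj]
      exact ((hDSM K).1 ψ J).le
    · rw [(hSPJ K ψ x).2, RCLike.norm_conj]
  have hnorm : ‖gG s ^ n‖ * D ^ (s.re / 2) * ‖F s‖ ≤ 2 * (G * q ^ (1 / 2 + 2 * κ) * I) := by
    have h1 : ‖gG s ^ n * (D : ℂ) ^ (s / 2) * F s‖ = ‖gG s ^ n‖ * D ^ (s.re / 2) * ‖F s‖ := by
      rw [norm_mul, norm_mul, Complex.norm_cpow_eq_rpow_re_of_pos hD0]
      congr 3
      have h2 : s / 2 = ((1 / 2 : ℝ) : ℂ) * s := by push_cast; ring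
      rw [h2, Complex.re_ofReal_mul]
      ring
    rw [← h1, hval]
    calc ‖a + ε * a'‖ ≤ ‖a‖ + ‖ε * a'‖ := norm_add_le _ _
      _ = ‖a‖ + ‖a'‖ := by rw [norm_mul, hε, one_mul]
      _ ≤ _ := by linarith
  have hGs := hG s hs8
  rw [← hT, ← hE₀] at hGs
  have hGpos : 0 < ‖gG s ^ n‖ := by
    by_contra hcon
    push Not at hcon
    have h1 : C₂ * T ^ j₂ * ‖gG s ^ n‖ ≤ 0 :=
      mul_nonpos_of_nonneg_of_nonpos (by positivity) hcon
    linarith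
  have hqD : q ^ (1 / 2 + 2 * κ) ≤ D ^ (1 / 4 - κ / 2) * D ^ (2 * κ) := by
    rw [hq, Real.sqrt_eq_rpow, ← Real.rpow_mul hD0.le, ← Real.rpow_add hD0]
    exact Real.rpow_le_rpow_of_exponent_le hD1 (by linarith)
  have hDl : D ^ (1 / 4 - κ / 2) ≤ D ^ (s.re / 2) :=
    Real.rpow_le_rpow_of_exponent_le hD1 (by linarith)
  have hDp : 0 < D ^ (1 / 4 - κ / 2) := Real.rpow_pos_of_pos hD0 _
  have hDκ : 0 < D ^ (2 * κ) := Real.rpow_pos_of_pos hD0 _
  have hmain : (‖gG s ^ n‖ * D ^ (1 / 4 - κ / 2)) * ‖F s‖ ≤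
      (‖gG s ^ n‖ * D ^ (1 / 4 - κ / 2)) *
        (2 * C₁ * C₂ * T ^ (j₁ + j₂) * D ^ (2 * κ) * I) := by
    calc (‖gG s ^ n‖ * D ^ (1 / 4 - κ / 2)) * ‖F s‖ ≤
          (‖gG s ^ n‖ * D ^ (s.re / 2)) * ‖F s‖ := by
          refine mul_le_mul_of_nonneg_right ?_ (norm_nonneg _)
          exact mul_le_mul_of_nonneg_left hDl hGpos.le
      _ ≤ 2 * (G * q ^ (1 / 2 + 2 * κ) * I) := hnorm
      _ = (2 * C₁ * T ^ j₁ * q ^ (1 / 2 + 2 * κ) * I) * E₀ := by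
          rw [hGdef]
          ring
      _ ≤ (2 * C₁ * T ^ j₁ * (D ^ (1 / 4 - κ / 2) * D ^ (2 * κ)) * I) *
          (C₂ * T ^ j₂ * ‖gG s ^ n‖) := by
          refine mul_le_mul ?_ hGs hE₀p.le (by positivity)
          refine mul_le_mul_of_nonneg_right ?_ hI0
          exact mul_le_mul_of_nonneg_left hqD (by positivity)
      _ = _ := by
          rw [pow_add]
          ring
  exact le_of_mul_le_mul_left hmain (by positivity)

end Pool.Agent.H23.CM4
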