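import Pool.Agent.H23.CM4.Targets
import Pool.Agent.H25.HK.Final

/-!
# The fourth moment over the CM extensions, row D_XC: the completed partial zeta functions
-/

set_option autoImplicit false

open NumberField NumberField.InfinitePlace NumberField.Units MeasureTheory Set Filter Complex
open scoped nonZeroDivisors Real

namespace Pool.Agent.H23.CM4

open Pool.Agent.H65.CM4 (gG Kc Sq nm dg)
open Pool.Agent.H25.HK

namespace XCP

/-- the function `s (s - 1) Λ(s)` -/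
noncomputable def A (P : WeakFEPair ℂ) (s : ℂ) : ℂ :=
  s * (s - 1) * P.Λ₀ s - (s - 1) * P.f₀ + s * (P.ε * P.g₀)

theorem A_diff (P : WeakFEPair ℂ) : Differentiable ℂ (A P) := by
  have h := P.differentiable_Λ₀
  have h1 : Differentiable ℂ fun s : ℂ => s * (s - 1) := by fun_prop
  have h2 : Differentiable ℂ fun s : ℂ => (s - 1) * P.f₀ := by fun_prop
  have h3 : Differentiable ℂ fun s : ℂ => s * (P.ε * P.g₀) := by fun_prop
  exact ((h1.mul h).sub h2).add h3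

theorem A_eq (P : WeakFEPair ℂ) (hk : P.k = 1) (s : ℂ) (h0 : s ≠ 0) (h1 : s ≠ 1) :
    A P s = s * (s - 1) * P.Λ s := by
  unfold A
  rw [WeakFEPair.Λ₀_eq, hk]
  simp only [smul_eq_mul, ofReal_one]
  have h2 : (1 : ℂ) - s ≠ 0 := sub_ne_zero.2 (Ne.symm h1)
  field_simp
  ring

theorem A_fe (P : WeakFEPair ℂ) (hk : P.k = 1) (s : ℂ) :
    A P (1 - s) = P.ε * A P.symm s := by
  have h := P.functional_equation₀ s
  rw [hk, ofReal_one, smul_eq_mul] at h
  unfold A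
  rw [h]
  have e : P.ε ≠ 0 := P.hε
  change _ = P.ε * (s * (s - 1) * P.symm.Λ₀ s - (s - 1) * P.g₀ + s * (P.ε⁻¹ * P.f₀))
  field_simp
  ring

theorem A_bd (P : WeakFEPair ℂ) (b : ℝ) : ∃ C : ℝ, 0 ≤ C ∧ ∀ s : ℂ, |s.re| ≤ b →
    ‖A P s‖ ≤ C * (1 + ‖s‖) ^ 2 := by
  obtain ⟨C, hC⟩ := Pool.Agent.H11.HK.bd P b
  refine ⟨|C| + ‖P.f₀‖ + ‖P.ε * P.g₀‖, by positivity, fun s hs => ?_⟩
  have h1 := (hC s hs).trans (le_abs_self C)
  have hn := norm_nonneg s
  have h2 : ‖s - 1‖ ≤ 1 + ‖s‖ := by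
    calc ‖s - 1‖ ≤ ‖s‖ + ‖(1 : ℂ)‖ := norm_sub_le _ _
      _ = 1 + ‖s‖ := by rw [norm_one]; ring
  have h3 : ‖s‖ ≤ 1 + ‖s‖ := by linarith
  have h4 : (1 + ‖s‖) ≤ (1 + ‖s‖) ^ 2 := by nlinarith
  unfold A
  have e1 : ‖s * (s - 1) * P.Λ₀ s‖ ≤ (1 + ‖s‖) ^ 2 * |C| := by
    rw [norm_mul, norm_mul, pow_two]
    exact mul_le_mul (mul_le_mul h3 h2 (norm_nonneg _) (by linarith)) h1 (norm_nonneg _)
      (by positivity)
  have e2 : ‖(s - 1) * P.f₀‖ ≤ (1 + ‖s‖) ^ 2 * ‖P.f₀‖ := by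
    rw [norm_mul]
    exact mul_le_mul_of_nonneg_right (h2.trans h4) (norm_nonneg _)
  have e3 : ‖s * (P.ε * P.g₀)‖ ≤ (1 + ‖s‖) ^ 2 * ‖P.ε * P.g₀‖ := by
    rw [norm_mul s]
    exact mul_le_mul_of_nonneg_right (h3.trans h4) (norm_nonneg _)
  calc _ ≤ ‖s * (s - 1) * P.Λ₀ s‖ + ‖(s - 1) * P.f₀‖ + ‖s * (P.ε * P.g₀)‖ :=
        (norm_add_le _ _).trans (add_le_add_left (norm_sub_le _ _) _)
    _ ≤ (1 + ‖s‖) ^ 2 * |C| + (1 + ‖s‖) ^ 2 * ‖P.f₀‖ + (1 + ‖s‖) ^ 2 * ‖P.ε * P.g₀‖ := by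
        linarith
    _ = _ := by ring

/-- complex powers of positive real numbers -/
theorem pw (x : ℝ) (hx : 0 < x) (z : ℂ) : (x : ℂ) ^ z = cexp ((Real.log x : ℝ) * z) := by
  rw [cpow_def_of_ne_zero (by exact_mod_cast hx.ne'), ofReal_log hx.le]

open scoped Classical in
/-- one side -/
theorem side (n : ℕ) (hn : 0 < n) (K : Type) [Field K] [NumberField K]
    (hg2 : ∀ s : ℂ, s ≠ 0 → s ≠ 1 → gG s = s * (s - 1) * Gammaℂ s / 2)
    (h1 : nrRealPlaces K = 0) (h2 : nrComplexPlaces K = n) (M : FI K) (hM : M ≠ 0)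
    (P : WeakFEPair ℂ) (hk : P.k = 1) (hf : ∀ t, P.f t = (ff K M t : ℂ))
    (hf0 : P.f₀ = ((volume.real (Fd K) : ℝ) : ℂ)) (N D w : ℝ) (hN : N = FractionalIdeal.absNorm M)
    (hw : w = torsionOrder K) (hN0 : 0 < N) (hD : 0 < D) (hw0 : 0 < w) (s : ℂ) (hs : 1 < s.re) :
    (w : ℂ)⁻¹ * (s * (s - 1)) ^ (n - 1) * A P s * (N : ℂ) ^ s * (D : ℂ) ^ (s / 2) =
      gG s ^ n * (D : ℂ) ^ (s / 2) *
        ∑' I : {I : Ideal (𝓞 K) // Pri K M I}, (Ideal.absNorm I.1 : ℂ) ^ (-s) := by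
  have s0 : s ≠ 0 := fun h => by rw [h] at hs; simp at hs; linarith
  have s1 : s ≠ 1 := fun h => by rw [h] at hs; simp at hs
  have hme := T_ME_proved K M hM s hs
  have hmel := (P.hasMellin (s := s) (by rw [hk]; exact hs)).2
  have e1 : (fun t => P.f t - P.f₀) = fun t => (ff K M t : ℂ) - (volume.real (Fd K) : ℝ) := by
    funext t
    rw [hf, hf0]
  rw [e1, hme] at hmel
  rw [A_eq P hk s s0 s1, ← hmel, hg2 s s0 s1]
  unfold gK
  rw [h1, h2, pow_zero, one_mul, zero_add, ← hN]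
  have hwc : (w : ℂ) = (torsionOrder K : ℂ) := by
    rw [hw]
    push_cast
    rfl
  rw [← hwc]
  have hwn : (w : ℂ) ≠ 0 := by exact_mod_cast hw0.ne'
  have hNN : (N : ℂ) ^ (-s) * (N : ℂ) ^ s = 1 := by
    rw [← cpow_add _ _ (by exact_mod_cast hN0.ne'), neg_add_cancel, cpow_zero]
  obtain ⟨m, rfl⟩ : ∃ m, n = m + 1 := ⟨n - 1, by omega⟩
  simp only [Nat.add_sub_cancel]
  set W := ∑' I : {I : Ideal (𝓞 K) // Pri K M I}, (Ideal.absNorm I.1 : ℂ) ^ (-s)
  have e2 : (s * (s - 1) * Gammaℂ s / 2) ^ (m + 1) =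
      (s * (s - 1)) ^ m * (s * (s - 1)) * (((2 : ℂ) ^ (m + 1))⁻¹ * Gammaℂ s ^ (m + 1)) := by
    rw [div_pow, mul_pow, pow_succ (s * (s - 1)) m]
    ring
  rw [e2]
  calc (w : ℂ)⁻¹ * (s * (s - 1)) ^ m * (s * (s - 1) * ((w : ℂ) * ((2 : ℂ) ^ (m + 1))⁻¹ *
        Gammaℂ s ^ (m + 1) * (N : ℂ) ^ (-s) * W)) * (N : ℂ) ^ s * (D : ℂ) ^ (s / 2)
      = ((w : ℂ)⁻¹ * w) * ((N : ℂ) ^ (-s) * (N : ℂ) ^ s) * ((s * (s - 1)) ^ m * (s * (s - 1)) *
        (((2 : ℂ) ^ (m + 1))⁻¹ * Gammaℂ s ^ (m + 1)) * (D : ℂ) ^ (s / 2) * W) := by ring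
    _ = _ := by rw [inv_mul_cancel₀ hwn, hNN]; ring

end XCP

open scoped Classical in
open XCP in
theorem pf_XC (hGGE : T_GGE) : T_XC := by
  intro n K _ _ hX M hM
  have hc : IsTotallyComplex K := hX.cpx
  have h1 : nrRealPlaces K = 0 := IsTotallyComplex.nrRealPlaces_eq_zero K
  have h2 : nrComplexPlaces K = n := by
    have := IsTotallyComplex.finrank K
    rw [hX.rk] at this
    omega
  obtain ⟨P, hf, hg, hk, hε, hf0, hg0⟩ := T_WP_proved K M hM
  obtain ⟨d1, d2, d3, d4, d5⟩ := T_DU_proved K M hM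
  set N : ℝ := (FractionalIdeal.absNorm M : ℝ) with hN
  set N' : ℝ := (FractionalIdeal.absNorm (du K M) : ℝ) with hN'
  set D : ℝ := |(discr K : ℝ)| with hD
  set w : ℝ := (torsionOrder K : ℝ) with hw
  have hD0 : 0 < D := abs_pos.2 (by exact_mod_cast NumberField.discr_ne_zero K)
  have hw0 : 0 < w := by
    rw [hw]
    exact_mod_cast torsionOrder_pos K
  have hN'0 : 0 < N' := by
    have : 0 < N' * N * D := by rw [d5]; exact one_pos
    by_contra hcon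
    have h3 : N' * (N * D) ≤ 0 := mul_nonpos_of_nonpos_of_nonneg (not_lt.1 hcon) (by positivity)
    nlinarith
  refine ⟨fun s => (w : ℂ)⁻¹ * (s * (s - 1)) ^ (n - 1) * A P s * (N : ℂ) ^ s * (D : ℂ) ^ (s / 2),
    fun s => (w : ℂ)⁻¹ * (s * (s - 1)) ^ (n - 1) * A P.symm s * (N' : ℂ) ^ s *
      (D : ℂ) ^ (s / 2), ?_, ?_, ?_, ?_, ?_, ?_⟩
  · have q1 : Differentiable ℂ fun s : ℂ => (w : ℂ)⁻¹ * (s * (s - 1)) ^ (n - 1) := by fun_prop
    have q2 : Differentiable ℂ fun s : ℂ => (N : ℂ) ^ s := fun s =>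
      DifferentiableAt.const_cpow differentiableAt_id (Or.inl (by exact_mod_cast d4.ne'))
    have q3 : Differentiable ℂ fun s : ℂ => (D : ℂ) ^ (s / 2) := fun s =>
      DifferentiableAt.const_cpow (differentiableAt_id.div_const _)
        (Or.inl (by exact_mod_cast hD0.ne'))
    exact ((q1.mul (A_diff P)).mul q2).mul q3
  · have q1 : Differentiable ℂ fun s : ℂ => (w : ℂ)⁻¹ * (s * (s - 1)) ^ (n - 1) := by fun_prop
    have q2 : Differentiable ℂ fun s : ℂ => (N' : ℂ) ^ s := fun s =>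
      DifferentiableAt.const_cpow differentiableAt_id (Or.inl (by exact_mod_cast hN'0.ne'))
    have q3 : Differentiable ℂ fun s : ℂ => (D : ℂ) ^ (s / 2) := fun s =>
      DifferentiableAt.const_cpow (differentiableAt_id.div_const _)
        (Or.inl (by exact_mod_cast hD0.ne'))
    exact ((q1.mul (A_diff P.symm)).mul q2).mul q3
  · intro s hs
    exact side n hX.pos K hGGE.2.1 h1 h2 M hM P hk hf hf0 N D w hN hw d4 hD0 hw0 s hs
  · intro s hs
    exact side n hX.pos K hGGE.2.1 h1 h2 (du K M) d1 P.symm hk hg hg0 N' D w hN' hw hN'0 hD0 hw0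
      s hs
  · intro s
    beta_reduce
    rw [A_fe P hk, hε]
    have e1 : (1 - s) * (1 - s - 1) = s * (s - 1) := by ring
    rw [e1]
    have hcv : (((cv K M)⁻¹ : ℝ) : ℂ) = cexp (-((Real.log D : ℝ) / 2 + (Real.log N : ℝ))) := by
      have hcv1 : cv K M = Real.exp (Real.log D / 2 + Real.log N) := by
        unfold cv
        rw [Real.exp_add, Real.exp_log d4, Real.exp_half, Real.exp_log hD0]
      rw [hcv1, ← Real.exp_neg, ofReal_exp]
      push_cast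
      rfl
    have hlN' : Real.log N' = -(Real.log N + Real.log D) := by
      have : Real.log (N' * N * D) = 0 := by rw [d5, Real.log_one]
      rw [Real.log_mul (by positivity) hD0.ne', Real.log_mul hN'0.ne' d4.ne'] at this
      linarith
    rw [hcv, pw N d4, pw N' hN'0, pw D hD0, pw D hD0, hlN']
    have e2 : cexp (-((Real.log D : ℝ) / 2 + (Real.log N : ℝ))) *
        (cexp ((Real.log N : ℝ) * (1 - s)) * cexp ((Real.log D : ℝ) * ((1 - s) / 2))) =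
        cexp ((-(Real.log N + Real.log D) : ℝ) * s) * cexp ((Real.log D : ℝ) * (s / 2)) := by
      rw [← Complex.exp_add, ← Complex.exp_add, ← Complex.exp_add]
      congr 1
      push_cast
      ring
    linear_combination ((w : ℂ)⁻¹ * (s * (s - 1)) ^ (n - 1) * A P.symm s) * e2
  · intro b
    obtain ⟨C, hC0, hC⟩ := A_bd P b
    refine ⟨w⁻¹ * C * (Real.exp (|Real.log N| * |b|) * Real.exp (|Real.log D| * |b|)),
      fun s hs => ?_⟩
    have hb : |s.re| ≤ |b| := hs.trans (le_abs_self b)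
    have hn := norm_nonneg s
    have f1 : ‖(N : ℂ) ^ s‖ ≤ Real.exp (|Real.log N| * |b|) := by
      rw [pw N d4, Complex.norm_exp]
      refine Real.exp_le_exp.2 ?_
      have : (((Real.log N : ℝ) : ℂ) * s).re = Real.log N * s.re := by simp
      rw [this]
      calc Real.log N * s.re ≤ |Real.log N * s.re| := le_abs_self _
        _ = |Real.log N| * |s.re| := abs_mul _ _
        _ ≤ _ := mul_le_mul_of_nonneg_left hb (abs_nonneg _)
    have f2 : ‖(D : ℂ) ^ (s / 2)‖ ≤ Real.exp (|Real.log D| * |b|) := by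
      rw [pw D hD0, Complex.norm_exp]
      refine Real.exp_le_exp.2 ?_
      have : (((Real.log D : ℝ) : ℂ) * (s / 2)).re = Real.log D * (s.re / 2) := by
        have h5 : ((Real.log D : ℝ) : ℂ) * (s / 2) = ((Real.log D / 2 : ℝ) : ℂ) * s := by
          push_cast
          ring
        rw [h5]
        simp
        ring
      rw [this]
      calc Real.log D * (s.re / 2) ≤ |Real.log D * (s.re / 2)| := le_abs_self _
        _ = |Real.log D| * (|s.re| / 2) := by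
            rw [abs_mul, abs_div]
            norm_num
        _ ≤ _ := mul_le_mul_of_nonneg_left (by linarith [abs_nonneg s.re]) (abs_nonneg _)
    have f3 : ‖(s * (s - 1)) ^ (n - 1)‖ ≤ (1 + ‖s‖) ^ (2 * (n - 1)) := by
      rw [norm_pow, norm_mul, pow_mul]
      refine pow_le_pow_left₀ (by positivity) ?_ _
      have h6 : ‖s - 1‖ ≤ 1 + ‖s‖ := by
        calc ‖s - 1‖ ≤ ‖s‖ + ‖(1 : ℂ)‖ := norm_sub_le _ _
          _ = 1 + ‖s‖ := by rw [norm_one]; ring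
      nlinarith [norm_nonneg (s - 1)]
    have f4 := hC s hs
    have f5 : ‖((w : ℂ))⁻¹‖ = w⁻¹ := by
      rw [norm_inv, norm_real, Real.norm_of_nonneg hw0.le]
    rw [norm_mul, norm_mul, norm_mul, norm_mul, f5]
    have f6 : (1 + ‖s‖) ^ (2 * (n - 1)) * (1 + ‖s‖) ^ 2 = (1 + ‖s‖) ^ (2 * n) := by
      rw [← pow_add]
      congr 1
      have := hX.pos
      omega
    calc w⁻¹ * ‖(s * (s - 1)) ^ (n - 1)‖ * ‖A P s‖ * ‖(N : ℂ) ^ s‖ * ‖(D : ℂ) ^ (s / 2)‖
        ≤ w⁻¹ * (1 + ‖s‖) ^ (2 * (n - 1)) * (C * (1 + ‖s‖) ^ 2) *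
          Real.exp (|Real.log N| * |b|) * Real.exp (|Real.log D| * |b|) := by
          have hwi : 0 ≤ w⁻¹ := by positivity
          gcongr
      _ = _ := by rw [← f6]; ring

end Pool.Agent.H23.CM4
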