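import Pool.Agent.H23.CM4.Targets
import Pool.Agent.H25.HK.Final

/-!
# The fourth moment over the CM extensions, row D_XI: the completed `L`-functions
-/

set_option autoImplicit false

open NumberField NumberField.InfinitePlace NumberField.Units MeasureTheory Set Filter Complex
open scoped nonZeroDivisors Real

namespace Pool.Agent.H23.CM4

open Pool.Agent.H31.CN (IsLf)
open Pool.Agent.H61.FM (CC pv Sp)
open Pool.Agent.H65.CM4 (gG Kc Sq nm dg)
open Pool.Agent.H25.HK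

namespace XIP

/-- the value of the character is inverse to its conjugate -/
theorem conj_unit {K : Type} [Field K] [NumberField K] (ψ : CC K) (g : ClassGroup (𝓞 K)) :
    ‖((ψ g : ℂˣ) : ℂ)‖ = 1 ∧ (starRingEnd ℂ) ((ψ g : ℂˣ) : ℂ) = (((ψ g)⁻¹ : ℂˣ) : ℂ) := by
  have h1 : ‖((ψ g : ℂˣ) : ℂ)‖ = 1 := by
    have hN : ((ψ g : ℂˣ) : ℂ) ^ Fintype.card (ClassGroup (𝓞 K)) = 1 := by
      rw [← Units.val_pow_eq_pow_val, ← map_pow, pow_card_eq_one, map_one, Units.val_one]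
    exact norm_eq_one_of_pow_eq_one hN Fintype.card_ne_zero
  refine ⟨h1, ?_⟩
  rw [Units.val_inv_eq_inv_val, Complex.inv_def, Complex.normSq_eq_norm_sq, h1]
  simp

/-- nonzero ideals -/
def eqv (K : Type) [Field K] [NumberField K] : (Ideal (𝓞 K))⁰ ≃ {I : Ideal (𝓞 K) // I ≠ ⊥} :=
  Equiv.subtypeEquivRight fun I => by
    rw [mem_nonZeroDivisors_iff_ne_zero]
    rfl

open Classical in
/-- the sum over a partition of the ideals -/
theorem split {K : Type} [Field K] [NumberField K] (a : (Ideal (𝓞 K))⁰ → ℂ)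
    (ha : ∀ J, ‖a J‖ ≤ 1) {ι : Type} [Fintype ι] (Q : ι → Ideal (𝓞 K) → Prop)
    (hQ : ∀ c I, Q c I → I ≠ ⊥) (hex : ∀ I : Ideal (𝓞 K), I ≠ ⊥ → ∃! c, Q c I) (v : ι → ℂ)
    (hv : ∀ c (J : (Ideal (𝓞 K))⁰), Q c (J : Ideal (𝓞 K)) → a J = v c) (s : ℂ) (hs : 1 < s.re) :
    ∑' J : (Ideal (𝓞 K))⁰, a J * (nJ J : ℂ) ^ (-s) =
      ∑ c, v c * ∑' I : {I : Ideal (𝓞 K) // Q c I}, (Ideal.absNorm I.1 : ℂ) ^ (-s) := by
  set f : Ideal (𝓞 K) → ℂ := fun I => (if h : I ≠ ⊥ then a ((eqv K).symm ⟨I, h⟩) else 0) *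
    (Ideal.absNorm I : ℂ) ^ (-s) with hf
  have hsum : Summable fun I : {I : Ideal (𝓞 K) // I ≠ ⊥} => ‖f I‖ := by
    refine Summable.of_nonneg_of_le (fun _ => norm_nonneg _) (fun I => ?_)
      (Pool.Agent.H63.HK.ds K s hs).1
    simp only [hf]
    rw [dif_pos I.2, norm_mul]
    calc _ ≤ 1 * ‖(Ideal.absNorm I.1 : ℂ) ^ (-s)‖ :=
          mul_le_mul_of_nonneg_right (ha _) (norm_nonneg _)
      _ = _ := one_mul _
  have h := sum_partition (fun I : Ideal (𝓞 K) => I ≠ ⊥) Q hQ hex f hsum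
  have e1 : ∑' J : (Ideal (𝓞 K))⁰, a J * (nJ J : ℂ) ^ (-s) =
      ∑' I : {I : Ideal (𝓞 K) // I ≠ ⊥}, f I := by
    rw [← (eqv K).tsum_eq]
    refine tsum_congr fun J => ?_
    simp only [hf]
    rw [dif_pos (eqv K J).2]
    have e2 : (eqv K).symm ⟨((eqv K J : {I : Ideal (𝓞 K) // I ≠ ⊥}) : Ideal (𝓞 K)),
        (eqv K J).2⟩ = J := (eqv K).symm_apply_apply J
    rw [e2]
    unfold nJ
    push_cast
    rfl
  rw [e1, ← h]
  refine Finset.sum_congr rfl fun c _ => ?_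
  rw [← tsum_mul_left]
  refine tsum_congr fun I => ?_
  simp only [hf]
  rw [dif_pos (hQ c I.1 I.2)]
  rw [hv c ((eqv K).symm ⟨I.1, hQ c I.1 I.2⟩) I.2]

end XIP

open XIP in
theorem pf_XI (hXC : T_XC) : T_XI := by
  intro n K _ _ hX ψ
  obtain ⟨ι, _, M, hM0, hp, hpd⟩ := T_CS_proved K
  obtain ⟨hd1, -, -, -, -⟩ := T_DU_proved K 1 one_ne_zero
  set Du : (FI K)ˣ := Units.mk0 (du K 1) hd1 with hDu
  set u : ι → (FI K)ˣ := fun c => Units.mk0 (M c) (hM0 c) with hu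
  set vc : ι → ℂ := fun c => (((ψ (ClassGroup.mk (K := K) (u c)))⁻¹ : ℂˣ) : ℂ) with hvc
  set e : ℂ := ((ψ (ClassGroup.mk (K := K) Du) : ℂˣ) : ℂ) with he
  have he1 : ‖e‖ = 1 := (conj_unit ψ _).1
  have he0 : e ≠ 0 := by
    rw [← norm_ne_zero_iff, he1]
    exact one_ne_zero
  have hmk : ∀ J : (Ideal (𝓞 K))⁰, (J : Ideal (𝓞 K)) ≠ ⊥ := fun J =>
    (eqv K J).2
  have hnz : ∀ J : (Ideal (𝓞 K))⁰, Pool.Agent.H63.HK.nzI K (J : Ideal (𝓞 K)) (hmk J) = J :=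
    fun J => Subtype.ext rfl
  have hv1 : ∀ c (J : (Ideal (𝓞 K))⁰), Pri K (M c) (J : Ideal (𝓞 K)) → pv ψ J = vc c := by
    intro c J hJ
    have h1 := (Pool.Agent.H63.HK.pri_iff K (u c) (J : Ideal (𝓞 K)) (hmk J)).1 (by
      simpa [hu] using hJ)
    rw [hnz] at h1
    have h2 : ψ (ClassGroup.mk0 J) * ψ (ClassGroup.mk (K := K) (u c)) = 1 := by
      rw [← map_mul, h1, map_one]
    have h3 : ψ (ClassGroup.mk0 J) = (ψ (ClassGroup.mk (K := K) (u c)))⁻¹ :=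
      eq_inv_of_mul_eq_one_left h2
    unfold pv
    rw [h3]
  have hv2 : ∀ c (J : (Ideal (𝓞 K))⁰), Pri K (du K (M c)) (J : Ideal (𝓞 K)) →
      (starRingEnd ℂ) (pv ψ J) = e * vc c := by
    intro c J hJ
    have hdu : du K (M c) = (((u c)⁻¹ * Du : (FI K)ˣ) : FI K) := by
      rw [(T_DU_proved K (M c) (hM0 c)).2.2.1, Units.val_mul, Units.val_inv_eq_inv_val]
      rfl
    have h1 := (Pool.Agent.H63.HK.pri_iff K ((u c)⁻¹ * Du) (J : Ideal (𝓞 K)) (hmk J)).1 (by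
      rw [← hdu]
      exact hJ)
    rw [hnz] at h1
    have h2 : ψ (ClassGroup.mk0 J) * ((ψ (ClassGroup.mk (K := K) (u c)))⁻¹ *
        ψ (ClassGroup.mk (K := K) Du)) = 1 := by
      rw [← map_inv, ← map_mul, ← map_mul, ← map_inv, ← map_mul, h1, map_one]
    have h3 : (ψ (ClassGroup.mk0 J))⁻¹ = (ψ (ClassGroup.mk (K := K) (u c)))⁻¹ *
        ψ (ClassGroup.mk (K := K) Du) := inv_eq_of_mul_eq_one_right h2
    unfold pv
    rw [(conj_unit ψ _).2, h3, Units.val_mul, mul_comm]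
  have hpv : ∀ J, ‖pv ψ J‖ ≤ 1 := fun J => (conj_unit ψ _).1.le
  choose Z Z' z1 z2 z3 z4 z5 z6 using fun c => hXC n K hX (M c) (hM0 c)
  refine ⟨fun s => ∑ c, vc c * Z c s, fun s => ∑ c, e * vc c * Z' c s, e⁻¹, ?_, ?_, ?_, ?_, ?_, ?_,
    ?_⟩
  · rw [norm_inv, he1, inv_one]
  · exact Differentiable.fun_sum fun c _ => (z1 c).const_mul _
  · exact Differentiable.fun_sum fun c _ => (z2 c).const_mul _
  · intro s hs
    rw [split (pv ψ) hpv (fun c I => Pri K (M c) I) (fun c I h => h.1) hp vc hv1 s hs,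
      Finset.mul_sum]
    refine Finset.sum_congr rfl fun c _ => ?_
    rw [z3 c s hs]
    ring
  · intro s hs
    rw [split (fun J => (starRingEnd ℂ) (pv ψ J)) (fun J => by
      rw [RCLike.norm_conj]
      exact hpv J) (fun c I => Pri K (du K (M c)) I) (fun c I h => h.1) hpd (fun c => e * vc c)
      hv2 s hs, Finset.mul_sum]
    refine Finset.sum_congr rfl fun c _ => ?_
    rw [z4 c s hs]
    ring
  · intro s
    beta_reduce
    rw [Finset.mul_sum]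
    refine Finset.sum_congr rfl fun c _ => ?_
    rw [z5 c s]
    field_simp
  · intro b
    choose C hC using fun c => z6 c b
    refine ⟨∑ c, ‖vc c‖ * C c, fun s hs => ?_⟩
    beta_reduce
    refine (norm_sum_le _ _).trans ?_
    rw [Finset.sum_mul]
    refine Finset.sum_le_sum fun c _ => ?_
    rw [norm_mul, mul_assoc]
    exact mul_le_mul_of_nonneg_left (hC c s hs) (norm_nonneg _)

end Pool.Agent.H23.CM4
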