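import Pool.Agent.H2.CM4.KSM
import Pool.Agent.H13.CM4.CMX
import Pool.Agent.H14.CM4.DVB
import Pool.Agent.H14.CM4.GGE
import Pool.Agent.H16.CM4.GLN
import Pool.Agent.H23.CM4.FIN
import Pool.Agent.H23.CM4.KRB
import Pool.Agent.H23.CM4.PBD
import Pool.Agent.H23.CM4.XC
import Pool.Agent.H23.CM4.XI
import Pool.Agent.H30.CM4.ABS
import Pool.Agent.H30.CM4.CO2
import Pool.Agent.H30.CM4.FM1
import Pool.Agent.H30.CM4.FMS
import Pool.Agent.H34.CM4.FM2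
import Pool.Agent.H38.CM4.EXL
import Pool.Agent.H38.CM4.SM2
import Pool.Agent.H42.CM4.ZKB
import Pool.Agent.H49.CM4.AFE
import Pool.Agent.H52.CM4.SPJ
import Pool.Agent.H52.CM4.SPR
import Pool.Agent.H52.CM4.TRB
import Pool.Agent.H58.CM4.MOT
import Pool.Agent.H63.CM4.CO1
import Pool.Agent.H64.CM4.XF
import Pool.Agent.H66.CM4.MUL
import Pool.Agent.H66.CM4.SQD
import Pool.Agent.H72.CM4.MOS
import Pool.Agent.H91.CM4.SFS
import Pool.Agent.H94.CM4.JDM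

/-!
# The fourth moment over the CM extensions: assembly of part D
-/

set_option autoImplicit false

namespace Pool.Agent.H23.CM4

theorem a_CMX : T_CMX := Pool.Agent.H13.CM4.pf_CMX

theorem a_DSM : T_DSM := Pool.Agent.H52.CM4.pf_DSM

theorem a_ZKB : T_ZKB := Pool.Agent.H42.CM4.pf_ZKB

theorem a_SPT : T_SPT := Pool.Agent.H52.CM4.pf_SPT a_DSM a_ZKB

theorem a_GGE : T_GGE := Pool.Agent.H14.CM4.pf_GGE

theorem a_XC : T_XC := pf_XC a_GGE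

theorem a_XI : T_XI := pf_XI a_XC

theorem a_EXL : T_EXL := Pool.Agent.H38.CM4.pf_EXL a_XI a_GGE a_DSM

theorem a_XF : T_XF := Pool.Agent.H64.CM4.pf_XF a_DSM a_GGE

theorem a_KSM : T_KSM := Pool.Agent.H2.CM4.pf_KSM a_GGE a_DSM

theorem a_AFE : T_AFE := Pool.Agent.H49.CM4.pf_AFE a_XI a_XF a_KSM a_DSM a_GGE

theorem a_GLN : T_GLN := Pool.Agent.H16.CM4.pf_GLN

theorem a_ABS : T_ABS := Pool.Agent.H30.CM4.pf_ABS a_DSM

theorem a_SPJ : T_SPJ := Pool.Agent.H52.CM4.pf_SPJ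

theorem a_JDM : T_JDM := Pool.Agent.H94.CM4.pf_JDM

theorem a_SPR : T_SPR := Pool.Agent.H52.CM4.pf_SPR a_JDM

theorem a_DVB : T_DVB := Pool.Agent.H14.CM4.pf_DVB a_JDM

theorem a_MUL : T_MUL := Pool.Agent.H66.CM4.pf_MUL a_JDM

theorem a_SQD : T_SQD := Pool.Agent.H66.CM4.pf_SQD a_JDM

theorem a_SFS : T_SFS := Pool.Agent.H91.CM4.pf_SFS a_JDM a_DSM

/-- part D: from the twisted second moment and the bounds for the kernel to the theorem -/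
theorem partD (hTMF : T_TMF) (hKCB : Pool.Agent.H61.CM4.T_KCB) (hKCD : Pool.Agent.H61.CM4.T_KCD) :
    Pool.Agent.H65.CM4.T_FIN := by
  have c_KRB : T_KRB := pf_KRB hKCB hKCD
  have c_PBD : T_PBD := pf_PBD a_AFE c_KRB a_GLN a_ABS a_SPJ a_SPT a_CMX a_DSM
  have c_TRB : T_TRB := Pool.Agent.H52.CM4.pf_TRB c_PBD a_SPT a_CMX
  have c_MOS : T_MOS := Pool.Agent.H72.CM4.pf_MOS hTMF a_MUL a_SQD a_SFS a_DVB a_SPR a_JDM
  have c_SM2 : T_SM2 := Pool.Agent.H38.CM4.pf_SM2 hTMF a_MUL a_JDM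
  have c_MOT : T_MOT := Pool.Agent.H58.CM4.pf_MOT c_MOS c_SM2 a_SPT a_CMX
  have c_FMS : T_FMS := Pool.Agent.H30.CM4.pf_FMS c_MOT c_PBD a_SPT a_CMX
  have c_FM1 : T_FM1 := Pool.Agent.H30.CM4.pf_FM1 c_FMS c_TRB a_CMX
  have c_FM2 : T_FM2 := Pool.Agent.H34.CM4.pf_FM2 c_FM1 a_CMX
  have c_CO1 : T_CO1 := Pool.Agent.H63.CM4.pf_CO1 c_FM1 a_CMX
  have c_CO2 : T_CO2 := Pool.Agent.H30.CM4.pf_CO2 c_CO1 a_CMX
  exact pf_FIN c_FM2 c_CO1 c_CO2 a_EXL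

end Pool.Agent.H23.CM4
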