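import Pool.Agent.H65.CM4.Defs
import Pool.Agent.H61.FM.Targets

/-!
# The fourth moment of the class group `L`-functions of the CM quadratic extensions of a totally real
field: definitions of part D (interface between the parts C and D)
-/

set_option autoImplicit false

open NumberField
open scoped nonZeroDivisors

namespace Pool.Agent.H23.CM4

open Pool.Agent.H31.CN (IsLf)
open Pool.Agent.H61.FM (CC pv)
open Pool.Agent.H65.CM4

section Base

variable (k : Type) [Field k] [NumberField k]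

/-- `K` is a CM quadratic extension of the totally real field `k` -/
structure CMq (K : Type) [Field K] [NumberField K] [Algebra k K] : Prop where
  rk : Module.finrank k K = 2
  cpx : IsTotallyComplex K

open Classical in
/-- the ideals with the relative norm `I` -/
noncomputable def Nr (K : Type) [Field K] [NumberField K] [Algebra k K] (I : Ideal (𝓞 k)) :
    Finset (Ideal (𝓞 K))⁰ :=
  if h : {J : (Ideal (𝓞 K))⁰ | Ideal.relNorm (𝓞 k) (J : Ideal (𝓞 K)) = I}.Finite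
    then h.toFinset else ∅

/-- the coefficients of the `L`-function as a Dirichlet series over the ideals of `k` -/
noncomputable def lr {K : Type} [Field K] [NumberField K] [Algebra k K] (ψ : CC K)
    (I : Ideal (𝓞 k)) : ℂ :=
  ∑ J ∈ Nr k K I, pv ψ J

/-- a family of pairwise non-isomorphic CM quadratic extensions of `k` and their `L`-functions, with
absolute discriminants in `[a, b]` -/
structure Fml {ι : Type} (S : Finset ι) (K : ι → Type) [∀ i, Field (K i)]
    [∀ i, NumberField (K i)] [∀ i, Algebra k (K i)] (F : ∀ i, CC (K i) → ℂ → ℂ) (a b : ℝ) :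
    Prop where
  cm : ∀ i ∈ S, CMq k (K i)
  lo : ∀ i ∈ S, a ≤ |(discr (K i) : ℝ)|
  hi : ∀ i ∈ S, |(discr (K i) : ℝ)| ≤ b
  ne : ∀ i ∈ S, ∀ j ∈ S, Nonempty (K i ≃ₐ[k] K j) → i = j
  lf : ∀ i ∈ S, ∀ ψ, IsLf (K i) ψ (F i ψ)

end Base

/-- (TMF) the twisted second moment of the `L`-functions: the interface between C and D -/
def T_TMF : Prop :=
  ∀ (k : Type) [Field k] [NumberField k] [IsTotallyReal k], ∃ b : ℕ, 0 < b ∧
    ∀ ε : ℝ, 0 < ε → ∃ κ : ℝ, 0 < κ ∧ κ ≤ 1 / 8 ∧ ∃ δ : ℝ, 0 < δ ∧ ∃ (C : ℝ) (j : ℕ), 0 < C ∧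
    ∀ (s : ℂ) (X A : ℝ) (α : Ideal (𝓞 k) → ℂ) (ι : Type) (S : Finset ι) (K : ι → Type)
      [∀ i, Field (K i)] [∀ i, NumberField (K i)] [∀ i, Algebra k (K i)]
      (F : ∀ i, CC (K i) → ℂ → ℂ),
      |s.re - 1 / 2| ≤ κ → 1 ≤ X → 1 ≤ A → A ≤ X ^ ((1 + δ) / 2) → (∀ I, ‖α I‖ ≤ 1) →
      Fml k S K F (X / 4) X →
      ∑ i ∈ S, ∑ ψ : CC (K i), ‖∑ I ∈ Sq b A, α I * lr k ψ I‖ ^ 2 * ‖F i ψ s‖ ^ 2 ≤
        C * (1 + |s.im|) ^ j * X ^ (3 / 2 + ε) * A

end Pool.Agent.H23.CM4
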