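import Pool.Agent.H23.CM4.Defs
import Pool.Agent.H25.HK.Targets

/-!
# The fourth moment of the class group `L`-functions of the CM quadratic extensions of a totally real
field, part D: from the twisted second moment to the theorem
-/

set_option autoImplicit false

open NumberField MeasureTheory Set Filter Complex
open scoped nonZeroDivisors Real

namespace Pool.Agent.H23.CM4

open Pool.Agent.H31.CN (IsLf)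
open Pool.Agent.H61.FM (CC pv Sp)
open Pool.Agent.H65.CM4 (gG Kc Sq nm dg)
open Pool.Agent.H25.HK (FI Pri du)

/-! ### Definitions -/

/-- `K` is a totally complex field of degree `2 n` -/
structure CX (K : Type) [Field K] [NumberField K] (n : ℕ) : Prop where
  pos : 0 < n
  rk : Module.finrank ℚ K = 2 * n
  cpx : IsTotallyComplex K

/-- the absolute value of the discriminant -/
noncomputable def dK (K : Type) [Field K] [NumberField K] : ℝ := |(discr K : ℝ)|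

/-- the norm of an ideal -/
noncomputable def nJ {K : Type} [Field K] [NumberField K] (J : (Ideal (𝓞 K))⁰) : ℝ :=
  (Ideal.absNorm (J : Ideal (𝓞 K)) : ℝ)

open Classical in
/-- the nonzero ideals of norm up to `x` -/
noncomputable def Jd (k : Type) [Field k] [NumberField k] (x : ℝ) : Finset (Ideal (𝓞 k)) :=
  if h : {I : Ideal (𝓞 k) | I ≠ ⊥ ∧ nm I ≤ x}.Finite then h.toFinset else ∅

/-- the prime divisors of `B` outside of `b` divide it at least twice -/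
def Full {k : Type} [Field k] [NumberField k] (b : ℕ) (B : Ideal (𝓞 k)) : Prop :=
  ∀ P : Ideal (𝓞 k), P.IsPrime → P ∣ B → P ^ 2 ∣ B ∨ (b : 𝓞 k) ∈ P

/-- the weight -/
noncomputable def wB (B : ℕ) (D x : ℝ) : ℝ := ((1 + x / Real.sqrt D) ^ B)⁻¹

/-! ### Fields and Dirichlet series -/

/-- (CMX) degrees and discriminants. -/
def T_CMX : Prop :=
  (∀ (k : Type) [Field k] [NumberField k] (K : Type) [Field K] [NumberField K] [Algebra k K],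
    CMq k K → CX K (dg k)) ∧
  ∀ (K : Type) [Field K] [NumberField K], 1 ≤ dK K

/-- (DSM) absolute convergence. -/
def T_DSM : Prop :=
  ∀ (K : Type) [Field K] [NumberField K], (∀ (ψ : CC K) (J : (Ideal (𝓞 K))⁰), ‖pv ψ J‖ = 1) ∧
    (∀ J : (Ideal (𝓞 K))⁰, 1 ≤ nJ J) ∧
    ∀ s : ℝ, 1 < s → Summable (fun J : (Ideal (𝓞 K))⁰ => nJ J ^ (-s))

/-- (ZKB) the sum of the inverse squares of the norms is bounded in terms of the degree. -/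
def T_ZKB : Prop :=
  ∀ m : ℕ, ∃ C : ℝ, 0 < C ∧ ∀ (K : Type) [Field K] [NumberField K], Module.finrank ℚ K = m →
    ∑' J : (Ideal (𝓞 K))⁰, nJ J ^ (-(2 : ℝ)) ≤ C

/-- (SPT) the trivial bound for the partial sums. -/
def T_SPT : Prop :=
  ∀ m : ℕ, ∃ C : ℝ, 0 < C ∧ ∀ (K : Type) [Field K] [NumberField K], Module.finrank ℚ K = m →
    ∀ (ψ : CC K), Measurable (Sp ψ) ∧ ∀ x : ℝ, 1 ≤ x → ‖Sp ψ x‖ ≤ C * x ^ 2

/-! ### The functional equation -/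

/-- (GGE) the Gamma factor: values, zeros, the product with the poles removed. -/
def T_GGE : Prop :=
  (∀ s : ℂ, 0 < s.re → DifferentiableAt ℂ gG s ∧ (s ≠ 1 → gG s ≠ 0)) ∧
  (∀ s : ℂ, s ≠ 0 → s ≠ 1 → gG s = s * (s - 1) * Gammaℂ s / 2) ∧
  ∃ g : ℂ → ℂ, Differentiable ℂ g ∧ ∀ s : ℂ, 0 < s.re → g s * gG s = s - 1

/-- (XC) the completed partial zeta functions. -/
def T_XC : Prop :=
  ∀ (n : ℕ) (K : Type) [Field K] [NumberField K], CX K n → ∀ M : FI K, M ≠ 0 →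
    ∃ Z Z' : ℂ → ℂ, Differentiable ℂ Z ∧ Differentiable ℂ Z' ∧
      (∀ s : ℂ, 1 < s.re → Z s = gG s ^ n * (dK K : ℂ) ^ (s / 2) *
        ∑' I : {I : Ideal (𝓞 K) // Pri K M I}, (Ideal.absNorm I.1 : ℂ) ^ (-s)) ∧
      (∀ s : ℂ, 1 < s.re → Z' s = gG s ^ n * (dK K : ℂ) ^ (s / 2) *
        ∑' I : {I : Ideal (𝓞 K) // Pri K (du K M) I}, (Ideal.absNorm I.1 : ℂ) ^ (-s)) ∧
      (∀ s : ℂ, Z (1 - s) = Z' s) ∧
      ∀ b : ℝ, ∃ C : ℝ, ∀ s : ℂ, |s.re| ≤ b → ‖Z s‖ ≤ C * (1 + ‖s‖) ^ (2 * n)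

/-- (XI) the completed `L`-function. -/
def T_XI : Prop :=
  ∀ (n : ℕ) (K : Type) [Field K] [NumberField K], CX K n → ∀ ψ : CC K,
    ∃ (Ξ Ξ' : ℂ → ℂ) (ε : ℂ), ‖ε‖ = 1 ∧ Differentiable ℂ Ξ ∧ Differentiable ℂ Ξ' ∧
      (∀ s : ℂ, 1 < s.re → Ξ s = gG s ^ n * (dK K : ℂ) ^ (s / 2) *
        ∑' J : (Ideal (𝓞 K))⁰, pv ψ J * (nJ J : ℂ) ^ (-s)) ∧
      (∀ s : ℂ, 1 < s.re → Ξ' s = gG s ^ n * (dK K : ℂ) ^ (s / 2) *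
        ∑' J : (Ideal (𝓞 K))⁰, (starRingEnd ℂ) (pv ψ J) * (nJ J : ℂ) ^ (-s)) ∧
      (∀ s : ℂ, Ξ (1 - s) = ε * Ξ' s) ∧
      ∀ b : ℝ, ∃ C : ℝ, ∀ s : ℂ, |s.re| ≤ b → ‖Ξ s‖ ≤ C * (1 + ‖s‖) ^ (2 * n)

/-- (EXL) the `L`-functions exist. -/
def T_EXL : Prop :=
  ∀ (n : ℕ) (K : Type) [Field K] [NumberField K], CX K n → ∀ ψ : CC K, ∃ F : ℂ → ℂ, IsLf K ψ F

/-- (XF) the completed `L`-function, for `Re s > 0`. -/
def T_XF : Prop :=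
  ∀ (n : ℕ) (K : Type) [Field K] [NumberField K], CX K n → ∀ (ψ : CC K) (F Ξ : ℂ → ℂ),
    IsLf K ψ F → Differentiable ℂ Ξ →
    (∀ s : ℂ, 1 < s.re → Ξ s = gG s ^ n * (dK K : ℂ) ^ (s / 2) *
      ∑' J : (Ideal (𝓞 K))⁰, pv ψ J * (nJ J : ℂ) ^ (-s)) →
    ∀ s : ℂ, 0 < s.re → s ≠ 1 → Ξ s = gG s ^ n * (dK K : ℂ) ^ (s / 2) * F s

/-- (KSM) the smoothed sums. -/
def T_KSM : Prop :=
  ∀ (n : ℕ) (K : Type) [Field K] [NumberField K], CX K n → ∀ (c : (Ideal (𝓞 K))⁰ → ℂ) (s : ℂ),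
    (∀ J, ‖c J‖ ≤ 1) → 0 < s.re → s.re < 1 →
    HasSum (fun J : (Ideal (𝓞 K))⁰ => c J * Kc n s ((nJ J / Real.sqrt (dK K) : ℝ) : ℂ))
      (((1 / (2 * π) : ℝ) : ℂ) * ∫ t : ℝ, (gG (2 + t * I) ^ n *
        (dK K : ℂ) ^ ((2 + t * I) / 2) * ∑' J : (Ideal (𝓞 K))⁰, c J * (nJ J : ℂ) ^ (-(2 + t * I))) *
        (cexp ((2 + t * I - s) ^ 2) / (2 + t * I - s)))

/-- (AFE) the approximate functional equation. -/
def T_AFE : Prop :=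
  ∀ (n : ℕ) (K : Type) [Field K] [NumberField K], CX K n → ∀ (ψ : CC K) (F : ℂ → ℂ),
    IsLf K ψ F → ∃ ε : ℂ, ‖ε‖ = 1 ∧ ∀ s : ℂ, 0 < s.re → s.re < 1 → ∃ a a' : ℂ,
      HasSum (fun J : (Ideal (𝓞 K))⁰ => pv ψ J *
        Kc n s ((nJ J / Real.sqrt (dK K) : ℝ) : ℂ)) a ∧
      HasSum (fun J : (Ideal (𝓞 K))⁰ => (starRingEnd ℂ) (pv ψ J) *
        Kc n (1 - s) ((nJ J / Real.sqrt (dK K) : ℝ) : ℂ)) a' ∧
      gG s ^ n * (dK K : ℂ) ^ (s / 2) * F s = a + ε * a'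

/-! ### Bounds for one `L`-function -/

/-- (KRB) bounds for the kernel on the positive real numbers. -/
def T_KRB : Prop :=
  ∀ (n B : ℕ) (κ : ℝ), 0 < n → 0 < κ → κ ≤ 1 / 8 → ∃ (C : ℝ) (j : ℕ), 0 < C ∧
    ∀ s : ℂ, |s.re - 1 / 2| ≤ κ →
      ContinuousOn (deriv (fun r : ℝ => Kc n s (r : ℂ))) (Ioi 0) ∧
      ∀ r : ℝ, 0 < r → DifferentiableAt ℝ (fun r : ℝ => Kc n s (r : ℂ)) r ∧
        ‖Kc n s (r : ℂ)‖ ≤ C * (1 + |s.im|) ^ j * Real.exp (-(π * n * |s.im| / 2)) *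
          r ^ (-(1 / 2 + 2 * κ)) * ((1 + r) ^ B)⁻¹ ∧
        ‖deriv (fun r : ℝ => Kc n s (r : ℂ)) r‖ ≤
          C * (1 + |s.im|) ^ j * Real.exp (-(π * n * |s.im| / 2)) *
          r ^ (-(3 / 2 + 2 * κ)) * ((1 + r) ^ B)⁻¹

/-- (GLN) the lower bound for the Gamma factor. -/
def T_GLN : Prop :=
  ∀ n : ℕ, ∃ (C : ℝ) (j : ℕ), 0 < C ∧ ∀ s : ℂ, |s.re - 1 / 2| ≤ 1 / 8 →
    Real.exp (-(π * n * |s.im| / 2)) ≤ C * (1 + |s.im|) ^ j * ‖gG s ^ n‖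

/-- (ABS) Abel summation for sums over ideals. -/
def T_ABS : Prop :=
  ∀ (K : Type) [Field K] [NumberField K] (c : (Ideal (𝓞 K))⁰ → ℂ) (g : ℝ → ℂ) (M : ℝ) (a : ℂ),
    (∀ J, ‖c J‖ ≤ 1) → ContinuousOn (deriv g) (Ici 1) →
    (∀ x : ℝ, 1 ≤ x → DifferentiableAt ℝ g x ∧ ‖g x‖ ≤ M * x ^ (-(3 : ℝ)) ∧
      ‖deriv g x‖ ≤ M * x ^ (-(4 : ℝ))) →
    HasSum (fun J : (Ideal (𝓞 K))⁰ => c J * g (nJ J)) a →
    IntegrableOn (fun x : ℝ => (∑' J : {J : (Ideal (𝓞 K))⁰ // nJ J ≤ x}, c J) * deriv g x)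
      (Ioi 1) ∧
      a = -∫ x in Ioi (1 : ℝ), (∑' J : {J : (Ideal (𝓞 K))⁰ // nJ J ≤ x}, c J) * deriv g x

/-- (SPJ) the partial sums. -/
def T_SPJ : Prop :=
  ∀ (K : Type) [Field K] [NumberField K] (ψ : CC K) (x : ℝ),
    ∑' J : {J : (Ideal (𝓞 K))⁰ // nJ J ≤ x}, pv ψ J = Sp ψ x ∧
    ∑' J : {J : (Ideal (𝓞 K))⁰ // nJ J ≤ x}, (starRingEnd ℂ) (pv ψ J) =
      (starRingEnd ℂ) (Sp ψ x)

/-- (PBD) the bound for the `L`-function by the partial sums of the coefficients. -/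
def T_PBD : Prop :=
  ∀ (n B : ℕ) (κ : ℝ), 0 < κ → κ ≤ 1 / 8 → ∃ (C : ℝ) (j : ℕ), 0 < C ∧
    ∀ (K : Type) [Field K] [NumberField K], CX K n → ∀ (ψ : CC K) (F : ℂ → ℂ), IsLf K ψ F →
    ∀ s : ℂ, |s.re - 1 / 2| ≤ κ →
    IntegrableOn (fun x : ℝ => ‖Sp ψ x‖ * x ^ (-(3 / 2) : ℝ) * wB (B + 4) (dK K) x) (Ioi 1) ∧
    ‖F s‖ ≤ C * (1 + |s.im|) ^ j * dK K ^ (2 * κ) *
      ∫ x in Ioi (1 : ℝ), ‖Sp ψ x‖ * x ^ (-(3 / 2) : ℝ) * wB (B + 4) (dK K) x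

/-- (TRB) the trivial bound for the `L`-function. -/
def T_TRB : Prop :=
  ∀ n : ℕ, ∃ (C : ℝ) (j : ℕ), 0 < C ∧ ∀ (K : Type) [Field K] [NumberField K], CX K n →
    ∀ (ψ : CC K) (F : ℂ → ℂ), IsLf K ψ F → ∀ s : ℂ, |s.re - 1 / 2| ≤ 1 / 8 →
      ‖F s‖ ≤ C * (1 + |s.im|) ^ j * dK K ^ 2

/-! ### The coefficients -/

/-- (JDM) ideals of bounded norm. -/
def T_JDM : Prop :=
  ∀ (k : Type) [Field k] [NumberField k],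
    (∀ (x : ℝ) (I : Ideal (𝓞 k)), I ∈ Jd k x ↔ I ≠ ⊥ ∧ nm I ≤ x) ∧
    (∀ (b : ℕ) (x : ℝ) (I : Ideal (𝓞 k)),
      I ∈ Sq b x ↔ I ≠ ⊥ ∧ Squarefree I ∧ I ⊔ Ideal.span {(b : 𝓞 k)} = ⊤ ∧ nm I ≤ x) ∧
    (∀ I : Ideal (𝓞 k), I ≠ ⊥ → 1 ≤ nm I) ∧ (∀ I I' : Ideal (𝓞 k), nm (I * I') = nm I * nm I') ∧
    ∀ (K : Type) [Field K] [NumberField K] [Algebra k K] (I : Ideal (𝓞 k)) (J : (Ideal (𝓞 K))⁰),
      J ∈ Nr k K I ↔ Ideal.relNorm (𝓞 k) (J : Ideal (𝓞 K)) = I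

/-- (SPR) the partial sums over the ideals of `k`. -/
def T_SPR : Prop :=
  ∀ (k : Type) [Field k] [NumberField k] (K : Type) [Field K] [NumberField K] [Algebra k K]
    (ψ : CC K) (x : ℝ), Sp ψ x = ∑ I ∈ Jd k x, lr k ψ I

/-- (DVB) the coefficients are small. -/
def T_DVB : Prop :=
  ∀ (k : Type) [Field k] [NumberField k] (ε : ℝ), 0 < ε → ∃ C : ℝ, 0 < C ∧
    ∀ (K : Type) [Field K] [NumberField K] [Algebra k K], CMq k K →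
    ∀ (ψ : CC K) (I : Ideal (𝓞 k)), I ≠ ⊥ → ‖lr k ψ I‖ ≤ C * nm I ^ ε

/-- (MUL) the coefficients are multiplicative. -/
def T_MUL : Prop :=
  ∀ (k : Type) [Field k] [NumberField k] (K : Type) [Field K] [NumberField K] [Algebra k K]
    (ψ : CC K), lr k ψ (⊤ : Ideal (𝓞 k)) = 1 ∧ ∀ I I' : Ideal (𝓞 k), I ≠ ⊥ → I' ≠ ⊥ →
      I ⊔ I' = ⊤ → lr k ψ (I * I') = lr k ψ I * lr k ψ I'

open Classical in
/-- (SQD) the decomposition of ideals. -/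
def T_SQD : Prop :=
  ∀ (k : Type) [Field k] [NumberField k] (b : ℕ) (a : Ideal (𝓞 k) → ℂ), 0 < b →
    (∀ I I' : Ideal (𝓞 k), I ≠ ⊥ → I' ≠ ⊥ → I ⊔ I' = ⊤ → a (I * I') = a I * a I') → ∀ x : ℝ,
    ∑ I ∈ Jd k x, a I = ∑ B ∈ (Jd k x).filter (Full b),
      a B * ∑ I ∈ Sq b (x / nm B), if I ⊔ B = ⊤ then a I else 0

open Classical in
/-- (SFS) the sum of `nm B ^ (-1/2)` over the squarefull ideals. -/
def T_SFS : Prop :=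
  ∀ (k : Type) [Field k] [NumberField k] (b : ℕ) (ε : ℝ), 0 < b → 0 < ε → ∃ C : ℝ, 0 < C ∧
    ∀ x : ℝ, 1 ≤ x → ∑ B ∈ (Jd k x).filter (Full b), nm B ^ (-(1 / 2) : ℝ) ≤ C * x ^ ε

/-! ### The fourth moment -/

/-- (MOS) the second moment with partial sums of the coefficients. -/
def T_MOS : Prop :=
  ∀ (k : Type) [Field k] [NumberField k] [IsTotallyReal k] (ε : ℝ), 0 < ε →
    ∃ κ : ℝ, 0 < κ ∧ κ ≤ 1 / 8 ∧ ∃ δ : ℝ, 0 < δ ∧ δ ≤ 1 ∧ ∃ (C : ℝ) (j : ℕ), 0 < C ∧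
    ∀ (s : ℂ) (X x : ℝ) (ι : Type) (S : Finset ι) (K : ι → Type) [∀ i, Field (K i)]
      [∀ i, NumberField (K i)] [∀ i, Algebra k (K i)] (F : ∀ i, CC (K i) → ℂ → ℂ),
      |s.re - 1 / 2| ≤ κ → 1 ≤ X → 1 ≤ x → x ≤ X ^ ((1 + δ) / 2) → Fml k S K F (X / 4) X →
      ∑ i ∈ S, ∑ ψ : CC (K i), ‖Sp ψ x‖ ^ 2 * ‖F i ψ s‖ ^ 2 ≤
        C * (1 + |s.im|) ^ j * X ^ (3 / 2 + ε) * x ^ (1 + ε)

/-- (SM2) the second moment. -/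
def T_SM2 : Prop :=
  ∀ (k : Type) [Field k] [NumberField k] [IsTotallyReal k] (ε : ℝ), 0 < ε →
    ∃ κ : ℝ, 0 < κ ∧ κ ≤ 1 / 8 ∧ ∃ (C : ℝ) (j : ℕ), 0 < C ∧
    ∀ (s : ℂ) (X : ℝ) (ι : Type) (S : Finset ι) (K : ι → Type) [∀ i, Field (K i)]
      [∀ i, NumberField (K i)] [∀ i, Algebra k (K i)] (F : ∀ i, CC (K i) → ℂ → ℂ),
      |s.re - 1 / 2| ≤ κ → 1 ≤ X → Fml k S K F (X / 4) X →
      ∑ i ∈ S, ∑ ψ : CC (K i), ‖F i ψ s‖ ^ 2 ≤ C * (1 + |s.im|) ^ j * X ^ (3 / 2 + ε)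

/-- (MOT) the second moment with partial sums of any length. -/
def T_MOT : Prop :=
  ∀ (k : Type) [Field k] [NumberField k] [IsTotallyReal k] (ε : ℝ), 0 < ε →
    ∃ κ : ℝ, 0 < κ ∧ κ ≤ 1 / 8 ∧ ∃ (B : ℕ) (C : ℝ) (j : ℕ), 0 < C ∧
    ∀ (s : ℂ) (X x : ℝ) (ι : Type) (S : Finset ι) (K : ι → Type) [∀ i, Field (K i)]
      [∀ i, NumberField (K i)] [∀ i, Algebra k (K i)] (F : ∀ i, CC (K i) → ℂ → ℂ),
      |s.re - 1 / 2| ≤ κ → 1 ≤ X → 1 ≤ x → Fml k S K F (X / 4) X →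
      (∑ i ∈ S, ∑ ψ : CC (K i), ‖Sp ψ x‖ ^ 2 * ‖F i ψ s‖ ^ 2) * wB B X x ≤
        C * (1 + |s.im|) ^ j * X ^ (3 / 2 + ε) * x ^ (1 + ε)

/-- (FMS) the fourth moment at a point near the critical line. -/
def T_FMS : Prop :=
  ∀ (k : Type) [Field k] [NumberField k] [IsTotallyReal k] (ε : ℝ), 0 < ε →
    ∃ κ : ℝ, 0 < κ ∧ κ ≤ 1 / 8 ∧ ∃ (C : ℝ) (j : ℕ), 0 < C ∧
    ∀ (s : ℂ) (X : ℝ) (ι : Type) (S : Finset ι) (K : ι → Type) [∀ i, Field (K i)]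
      [∀ i, NumberField (K i)] [∀ i, Algebra k (K i)] (F : ∀ i, CC (K i) → ℂ → ℂ),
      |s.re - 1 / 2| ≤ κ → 1 ≤ X → Fml k S K F (X / 4) X →
      ∑ i ∈ S, ∑ ψ : CC (K i), ‖F i ψ s‖ ^ 4 ≤ C * (1 + |s.im|) ^ j * X ^ (3 / 2 + ε)

/-- (FM1) the fourth moment, discriminants in `[X / 4, X]`. -/
def T_FM1 : Prop :=
  ∀ (k : Type) [Field k] [NumberField k] [IsTotallyReal k] (ε : ℝ), 0 < ε →
    ∃ (C : ℝ) (A : ℕ), 0 < C ∧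
    ∀ (X : ℝ) (ι : Type) (S : Finset ι) (K : ι → Type) [∀ i, Field (K i)]
      [∀ i, NumberField (K i)] [∀ i, Algebra k (K i)] (F : ∀ i, CC (K i) → ℂ → ℂ)
      (t : ∀ i, CC (K i) → ℝ), 1 ≤ X → Fml k S K F (X / 4) X →
      ∑ i ∈ S, ∑ ψ : CC (K i),
        (‖F i ψ (1 / 2 + t i ψ * I)‖ / (1 + |t i ψ|) ^ A) ^ 4 ≤ C * X ^ (3 / 2 + ε)

/-- (FM2) the fourth moment, all discriminants up to `X`. -/
def T_FM2 : Prop :=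
  ∀ (k : Type) [Field k] [NumberField k] [IsTotallyReal k] (ε : ℝ), 0 < ε →
    ∃ (C : ℝ) (A : ℕ), 0 < C ∧
    ∀ (X : ℝ) (ι : Type) (S : Finset ι) (K : ι → Type) [∀ i, Field (K i)]
      [∀ i, NumberField (K i)] [∀ i, Algebra k (K i)] (F : ∀ i, CC (K i) → ℂ → ℂ)
      (t : ∀ i, CC (K i) → ℝ), 1 ≤ X → Fml k S K F 0 X →
      ∑ i ∈ S, ∑ ψ : CC (K i),
        (‖F i ψ (1 / 2 + t i ψ * I)‖ / (1 + |t i ψ|) ^ A) ^ 4 ≤ C * X ^ (3 / 2 + ε)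

/-- (CO1) almost all characters. -/
def T_CO1 : Prop :=
  ∀ (k : Type) [Field k] [NumberField k] [IsTotallyReal k] (ε : ℝ), 0 < ε →
    ∃ (C : ℝ) (A : ℕ), 0 < C ∧
    ∀ (X η : ℝ) (ι : Type) (S : Finset ι) (K : ι → Type) [∀ i, Field (K i)]
      [∀ i, NumberField (K i)] [∀ i, Algebra k (K i)] (F : ∀ i, CC (K i) → ℂ → ℂ)
      (T : Finset (Σ i, CC (K i))), 1 ≤ X → 0 ≤ η → η ≤ 3 / 8 → Fml k S K F 0 X →
      (∀ p ∈ T, p.1 ∈ S ∧ ∃ t : ℝ,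
        (1 + |t|) ^ A * dK (K p.1) ^ η < ‖F p.1 p.2 (1 / 2 + t * I)‖) →
      (T.card : ℝ) ≤ C * X ^ (3 / 2 - 4 * η + ε)

/-- (CO2) almost all fields: all class group `L`-functions are small. -/
def T_CO2 : Prop :=
  ∀ (k : Type) [Field k] [NumberField k] [IsTotallyReal k] (ε : ℝ), 0 < ε →
    ∃ (C : ℝ) (A : ℕ), 0 < C ∧
    ∀ (X η : ℝ) (ι : Type) (S : Finset ι) (K : ι → Type) [∀ i, Field (K i)]
      [∀ i, NumberField (K i)] [∀ i, Algebra k (K i)] (F : ∀ i, CC (K i) → ℂ → ℂ),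
      1 ≤ X → 0 ≤ η → η ≤ 1 / 4 → Fml k S K F 0 X →
      (∀ i ∈ S, ∃ (ψ : CC (K i)) (t : ℝ),
        (1 + |t|) ^ A * dK (K i) ^ (1 / 8 + η) < ‖F i ψ (1 / 2 + t * I)‖) →
      (S.card : ℝ) ≤ C * X ^ (1 - 4 * η + ε)

end Pool.Agent.H23.CM4
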